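import Pool.Agent.H8.TX.Targets
import Pool.Agent.H10.TD.LNX

/-!
# Zariski dense orbits on threefolds, row HTX: heights of the points of the threefold over a line
-/

set_option autoImplicit false

open MvPolynomial
open Pool.Agent.H12.ZD (pmap)
open Pool.Agent.H18.HIT Pool.Agent.H18.HX Pool.Agent.H18.VZ
open Pool.Agent.H8.ZA (HFam Const NA)
open Pool.Agent.H8.TD (lc dg Wsp Cop dh)
open Pool.Agent.H8.TX

namespace Pool.Agent.H75.TX

namespace HTX

section max

variable {k : Type} [Field k] (v : AbsoluteValue k ℝ) {n : ℕ}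

lemma le_mxn (x : Fin n → k) (i : Fin n) : v (x i) ≤ mxn v x := by
  unfold mxn
  exact (Finset.le_fold_max _).2 (Or.inr ⟨i, Finset.mem_univ i, le_rfl⟩)

lemma mxn_le {x : Fin n → k} {B : ℝ} (hB : 0 ≤ B) (h : ∀ i, v (x i) ≤ B) : mxn v x ≤ B := by
  unfold mxn
  exact (Finset.fold_max_le _).2 ⟨hB, fun i _ => h i⟩

lemma mxn_nonneg (x : Fin n → k) : 0 ≤ mxn v x := by
  unfold mxn
  exact (Finset.le_fold_max _).2 (Or.inl le_rfl)

lemma le_szn (x : Fin n → k) (i : Fin n) : v (x i) ≤ szn v x := by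
  unfold szn
  exact (Finset.le_fold_max _).2 (Or.inr ⟨i, Finset.mem_univ i, le_rfl⟩)

lemma one_le_szn (x : Fin n → k) : 1 ≤ szn v x := by
  unfold szn
  exact (Finset.le_fold_max _).2 (Or.inl le_rfl)

lemma szn_le {x : Fin n → k} {B : ℝ} (hB : 1 ≤ B) (h : ∀ i, v (x i) ≤ B) : szn v x ≤ B := by
  unfold szn
  exact (Finset.fold_max_le _).2 ⟨hB, fun i _ => h i⟩

lemma mxn_pos {x : Fin n → k} {i : Fin n} (hi : x i ≠ 0) : 0 < mxn v x :=
  (v.pos hi).trans_le (le_mxn v x i)

/-- affine and projective sizes -/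
lemma mxn_af {y : Fin 5 → k} (hy : y 1 ≠ 0) : mxn v y = v (y 1) * szn v (af y) := by
  have h1 : 0 < v (y 1) := v.pos hy
  have haf : ∀ j, v (y j) = v (y 1) * v (af y j) := by
    intro j
    rw [← map_mul]
    show v (y j) = v (y 1 * (y j / y 1))
    rw [mul_div_cancel₀ _ hy]
  refine le_antisymm (mxn_le v ?_ fun j => ?_) ?_
  · exact mul_nonneg h1.le (zero_le_one.trans (one_le_szn v _))
  · rw [haf j]
    exact mul_le_mul_of_nonneg_left (le_szn v _ j) h1.le
  · rw [mul_comm, ← le_div_iff₀ h1]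
    refine szn_le v ?_ fun j => ?_
    · rw [le_div_iff₀ h1, one_mul]
      exact le_mxn v y 1
    · rw [le_div_iff₀ h1, mul_comm, ← haf j]
      exact le_mxn v y j

end max

section fin

variable {K : IntermediateField ℚ Qb} (F : HFam K)

lemma mxn_log_fin {n : ℕ} {x : Fin n → Qb} {j : Fin n} (hj : x j ≠ 0) :
    (Function.support fun i => Real.log (mxn (F.abv i) x)).Finite := by
  classical
  have hfin : (⋃ l ∈ Finset.univ.filter (fun l : Fin n => x l ≠ 0),
      {i | F.abv i (x l) ≠ 1}).Finite := by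
    apply Set.Finite.biUnion (Finset.finite_toSet _)
    intro l hl
    exact F.finite (x l) (Finset.mem_filter.1 (Finset.mem_coe.1 hl)).2
  refine hfin.subset fun i hi => ?_
  by_contra hcon
  apply hi
  have h1 : ∀ l, x l ≠ 0 → F.abv i (x l) = 1 := by
    intro l hl
    by_contra hne
    apply hcon
    rw [Set.mem_iUnion₂]
    exact ⟨l, Finset.mem_filter.2 ⟨Finset.mem_univ _, hl⟩, hne⟩
  have h2 : mxn (F.abv i) x = 1 := by
    refine le_antisymm (mxn_le _ zero_le_one fun l => ?_) ?_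
    · by_cases hl : x l = 0
      · rw [hl, map_zero]
        exact zero_le_one
      · exact (h1 l hl).le
    · rw [← h1 j hj]
      exact le_mxn _ x j
  simp only [h2, Real.log_one]

/-- the height of the affine point -/
lemma hn_af {y : Fin 5 → Qb} (hy : y 1 ≠ 0) (hK : y 1 ∈ K) : hn F (af y) = hp F y := by
  have hlogy : (Function.support fun i => Real.log (F.abv i (y 1))).Finite :=
    (F.finite (y 1) hy).subset fun i hi h1 => hi (by simp only [h1, Real.log_one])
  have h1 : ∀ i, Real.log (szn (F.abv i) (af y)) =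
      Real.log (mxn (F.abv i) y) - Real.log (F.abv i (y 1)) := by
    intro i
    rw [mxn_af (F.abv i) hy, Real.log_mul ((F.abv i).pos hy).ne'
      (zero_lt_one.trans_le (one_le_szn _ _)).ne', add_sub_cancel_left]
  unfold hn hp
  simp only [h1]
  rw [finsum_sub_distrib (mxn_log_fin F hy) hlogy, F.prod _ hK hy, sub_zero]

lemma const_max (c : Qb) : Const F fun i => max 1 (F.abv i c) := by
  refine ⟨fun i => le_max_left _ _, ?_⟩
  by_cases hc : c = 0
  · have : {i | max 1 (F.abv i c) ≠ 1} = ∅ := by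
      ext i
      simp [hc]
    rw [this]
    exact Set.finite_empty
  · exact (F.finite c hc).subset fun i hi h1 => hi (by rw [h1, max_self])

lemma const_prodS {ι : Type} (s : Finset ι) (c : ι → Qb) :
    Const F fun i => ∏ j ∈ s, max 1 (F.abv i (c j)) := by
  classical
  induction s using Finset.induction_on with
  | empty =>
    simp only [Finset.prod_empty]
    exact Const.one F
  | insert a s ha ih =>
    simp only [Finset.prod_insert ha]
    exact (const_max F (c a)).mul ih

end fin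

section poly

variable {k : Type} [Field k]

/-- the leading monomial -/
lemma mon_coeff {P : Po 5 k} {r : ℕ} (h : Hyp P r) : coeff (Finsupp.single 0 r) P = 1 := by
  have hm : (finSuccEquiv k 4 P).coeff (finSuccEquiv k 4 P).natDegree = 1 := h.mon
  have h1 : coeff (Finsupp.cons (finSuccEquiv k 4 P).natDegree 0) P = 1 := by
    rw [← finSuccEquiv_coeff_coeff, hm]
    exact coeff_zero_one
  have h2 := h.hom (d := Finsupp.cons (finSuccEquiv k 4 P).natDegree 0)
    (by rw [h1]; exact one_ne_zero)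
  have h3 : (Finsupp.cons (finSuccEquiv k 4 P).natDegree 0 : Fin 5 →₀ ℕ) =
      Finsupp.single 0 (finSuccEquiv k 4 P).natDegree := by
    ext j
    refine Fin.cases ?_ (fun j => ?_) j
    · rw [Finsupp.cons_zero, Finsupp.single_eq_same]
    · rw [Finsupp.cons_succ, Finsupp.single_eq_of_ne (Fin.succ_ne_zero j)]
      rfl
  rw [h3] at h1 h2
  have h4 : (finSuccEquiv k 4 P).natDegree = r := by
    rw [← h2, Finsupp.weight_single]
    simp
  rwa [h4] at h1

/-- the other monomials have smaller degree in the first variable -/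
lemma sup_lt {P : Po 5 k} {r : ℕ} (h : Hyp P r) {m : Fin 5 →₀ ℕ}
    (hm : m ∈ (P - X 0 ^ r).support) :
    m 0 < r ∧ m 0 + ∑ i : Fin 4, m i.succ = r := by
  classical
  have hX : (X 0 ^ r : Po 5 k) = monomial (Finsupp.single 0 r) 1 := X_pow_eq_monomial
  have hhom : (P - X 0 ^ r).IsHomogeneous r := by
    refine h.hom.sub ?_
    have := (isHomogeneous_X k (0 : Fin 5)).pow r
    rwa [one_mul] at this
  have h1 := hhom (mem_support_iff.1 hm)
  have h2 : ∑ i : Fin 5, m i = r := by
    rw [← h1, Finsupp.weight_apply, Finsupp.sum_fintype _ _ (by simp)]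
    simp
  rw [Fin.sum_univ_succ] at h2
  refine ⟨?_, h2⟩
  by_contra hcon
  have h3 : m 0 = r := by omega
  have h4 : ∑ i : Fin 4, m i.succ = 0 := by omega
  have h5 : m = Finsupp.single 0 r := by
    ext j
    refine Fin.cases ?_ (fun j => ?_) j
    · rw [Finsupp.single_eq_same, h3]
    · rw [Finsupp.single_eq_of_ne (Fin.succ_ne_zero j)]
      exact (Finset.sum_eq_zero_iff.1 h4) j (Finset.mem_univ _)
  apply mem_support_iff.1 hm
  rw [coeff_sub, hX, coeff_monomial, h5, if_pos rfl, mon_coeff h, sub_self]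

/-- one term -/
lemma term_le {P : Po 5 k} {r : ℕ} (h : Hyp P r) {m : Fin 5 →₀ ℕ}
    (hm : m ∈ (P - X 0 ^ r).support) (v : AbsoluteValue k ℝ) (x : Fin 4 → k) (u : k)
    (hu : mxn v x ≤ v u) :
    v (coeff m (P - X 0 ^ r) * ∏ i, (Fin.cons u x : Fin 5 → k) i ^ m i) ≤
      max 1 (v (coeff m (P - X 0 ^ r))) * (v u ^ (r - 1) * mxn v x) := by
  obtain ⟨h1, h2⟩ := sup_lt h hm
  have hM := mxn_nonneg v x
  have hu0 := v.nonneg u
  rw [map_mul, map_prod, Fin.prod_univ_succ, Fin.cons_zero, map_pow]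
  refine mul_le_mul (le_max_right _ _) ?_ ?_ (zero_le_one.trans (le_max_left _ _))
  · have h3 : ∏ i : Fin 4, v ((Fin.cons u x : Fin 5 → k) i.succ ^ m i.succ) ≤
        ∏ i : Fin 4, mxn v x ^ m i.succ := by
      refine Finset.prod_le_prod (fun i _ => v.nonneg _) fun i _ => ?_
      rw [Fin.cons_succ, map_pow]
      exact pow_le_pow_left₀ (v.nonneg _) (le_mxn v x i) _
    rw [Finset.prod_pow_eq_pow_sum] at h3
    have h4 : ∑ i : Fin 4, m i.succ = (r - 1 - m 0) + 1 := by omega
    calc v u ^ m 0 * ∏ i : Fin 4, v ((Fin.cons u x : Fin 5 → k) i.succ ^ m i.succ)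
        ≤ v u ^ m 0 * mxn v x ^ ((r - 1 - m 0) + 1) := by
          rw [← h4]
          exact mul_le_mul_of_nonneg_left h3 (pow_nonneg hu0 _)
      _ ≤ v u ^ m 0 * (v u ^ (r - 1 - m 0) * mxn v x) := by
          rw [pow_succ]
          refine mul_le_mul_of_nonneg_left (mul_le_mul_of_nonneg_right ?_ hM) (pow_nonneg hu0 _)
          exact pow_le_pow_left₀ hM hu _
      _ = v u ^ (r - 1) * mxn v x := by
          rw [← mul_assoc, ← pow_add]
          congr 2
          omega
  · exact mul_nonneg (pow_nonneg hu0 _) (Finset.prod_nonneg fun i _ => v.nonneg _)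

/-- the size of the first coordinate -/
lemma size_le {P : Po 5 k} {r : ℕ} (h : Hyp P r) (v : AbsoluteValue k ℝ) (x : Fin 4 → k) (u : k)
    (h0 : eval (Fin.cons u x : Fin 5 → k) P = 0) (C : ℝ) (hC : 1 ≤ C)
    (hsum : ∀ B : ℝ, 0 ≤ B → v (∑ m ∈ (P - X 0 ^ r).support, coeff m (P - X 0 ^ r) *
      ∏ i, (Fin.cons u x : Fin 5 → k) i ^ m i) ≤ C * B ∨ ∃ m ∈ (P - X 0 ^ r).support,
      max 1 (v (coeff m (P - X 0 ^ r))) * B < v (coeff m (P - X 0 ^ r) *
        ∏ i, (Fin.cons u x : Fin 5 → k) i ^ m i)) :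
    v u ≤ C * mxn v x := by
  have hM := mxn_nonneg v x
  rcases le_total (v u) (mxn v x) with hu | hu
  · exact hu.trans (le_mul_of_one_le_left hM hC)
  have hB : 0 ≤ v u ^ (r - 1) * mxn v x := mul_nonneg (pow_nonneg (v.nonneg _) _) hM
  rcases hsum _ hB with h1 | ⟨m, hm, h1⟩
  · have h2 : u ^ r = - ∑ m ∈ (P - X 0 ^ r).support, coeff m (P - X 0 ^ r) *
        ∏ i, (Fin.cons u x : Fin 5 → k) i ^ m i := by
      rw [← eval_eq', map_sub, h0, map_pow, eval_X, Fin.cons_zero]
      ring
    rcases Nat.eq_zero_or_pos r with hr | hr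
    · exfalso
      subst hr
      have h3 : (P - X 0 ^ 0).support = ∅ := by
        by_contra hne
        obtain ⟨m, hm⟩ := Finset.nonempty_iff_ne_empty.2 hne
        exact absurd (sup_lt h hm).1 (Nat.not_lt_zero _)
      rw [h3, Finset.sum_empty, neg_zero, pow_zero] at h2
      exact one_ne_zero h2
    · rcases eq_or_lt_of_le (v.nonneg u) with hu0 | hu0
      · rw [← hu0]
        exact mul_nonneg (zero_le_one.trans hC) hM
      · have h3 : v u ^ r ≤ C * (v u ^ (r - 1) * mxn v x) := by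
          rw [← map_pow, h2, map_neg_eq_map]
          exact h1
        have h4 : v u ^ r = v u ^ (r - 1) * v u := by
          rw [← pow_succ]
          congr 1
          omega
        rw [h4] at h3
        have h5 : v u ^ (r - 1) * v u ≤ v u ^ (r - 1) * (C * mxn v x) := by
          refine h3.trans (le_of_eq ?_)
          ring
        exact le_of_mul_le_mul_left h5 (pow_pos hu0 _)
  · exact absurd (term_le h hm v x u hu) (not_le.2 h1)

end poly

/-- the two sizes of a point over a line -/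
lemma sizes {K : IntermediateField ℚ Qb} (F : HFam K) {P : Po 5 Qb} {r : ℕ} (h : Hyp P r) :
    ∃ C : F.ι → ℝ, Const F C ∧ ∀ i (x : Fin 4 → Qb) (u : Qb),
      eval (Fin.cons u x : Fin 5 → Qb) P = 0 → F.abv i u ≤ C i * mxn (F.abv i) x := by
  classical
  obtain ⟨s, hs⟩ : ∃ s, s = (P - X 0 ^ r).support := ⟨_, rfl⟩
  obtain ⟨c, hc⟩ : ∃ c : (Fin 5 →₀ ℕ) → Qb, c = fun m => coeff m (P - X 0 ^ r) := ⟨_, rfl⟩
  have hA : Const F fun i => if i ∈ F.arch then (s.card : ℝ) + 1 else 1 := by
    refine ⟨fun i => ?_, F.arch.finite_toSet.subset fun i hi => ?_⟩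
    · split_ifs
      · have : (0 : ℝ) ≤ s.card := Nat.cast_nonneg _
        linarith
      · exact le_rfl
    · by_contra hcon
      exact hi (if_neg hcon)
  refine ⟨_, hA.mul (const_prodS F s c), fun i x u h0 => ?_⟩
  have hprod : ∀ m ∈ s, max 1 (F.abv i (c m)) ≤ ∏ j ∈ s, max 1 (F.abv i (c j)) := fun m hm =>
    Pool.Agent.H10.TD.le_prodR s (fun j => max 1 (F.abv i (c j))) (fun j _ => le_max_left _ _) hm
  have hprod1 : 1 ≤ ∏ j ∈ s, max 1 (F.abv i (c j)) :=
    Pool.Agent.H10.TD.one_le_prodR s _ fun j _ => le_max_left _ _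
  refine size_le h (F.abv i) x u h0 _ ((hA.mul (const_prodS F s c)).one_le i) fun B hB => ?_
  by_cases hcon : ∃ m ∈ (P - X 0 ^ r).support,
      max 1 (F.abv i (coeff m (P - X 0 ^ r))) * B < F.abv i (coeff m (P - X 0 ^ r) *
        ∏ l, (Fin.cons u x : Fin 5 → Qb) l ^ m l)
  · exact Or.inr hcon
  left
  push Not at hcon
  rw [← hs]
  have hterm : ∀ m ∈ s, F.abv i (coeff m (P - X 0 ^ r) *
      ∏ l, (Fin.cons u x : Fin 5 → Qb) l ^ m l) ≤
      (∏ j ∈ s, max 1 (F.abv i (c j))) * B := by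
    intro m hm
    have h1 := hprod m hm
    rw [hc] at h1
    refine (hcon m (hs ▸ hm)).trans (mul_le_mul_of_nonneg_right ?_ hB)
    rw [hc]
    exact h1
  by_cases ha : i ∈ F.arch
  · simp only [if_pos ha]
    refine ((F.abv i).sum_le _ _).trans ((Finset.sum_le_sum hterm).trans ?_)
    rw [Finset.sum_const, nsmul_eq_mul, mul_assoc]
    refine mul_le_mul_of_nonneg_right (by linarith) ?_
    exact mul_nonneg (zero_le_one.trans hprod1) hB
  · simp only [if_neg ha]
    rw [one_mul]
    exact Pool.Agent.H10.TD.na_sum (F.abv i) (F.na i ha) s _ _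
      (mul_nonneg (zero_le_one.trans hprod1) hB) hterm

end HTX

open HTX

theorem pf_HTX (hLNY : T_LNY) : T_HTX := by
  classical
  intro P r w v hP hv hw K₀ F hK
  obtain ⟨C, hC, hCb⟩ := sizes F hP
  obtain ⟨p, hpd0⟩ : ∃ p : Fin (3 + 1) → Polynomial Qb, p = fun i =>
    Polynomial.C (w i) + Polynomial.X * Polynomial.C (v i) := ⟨_, rfl⟩
  have hpe : ∀ (t : Qb) i, (p i).eval t = w i + t * v i := by
    intro t i
    rw [hpd0]
    simp only [Polynomial.eval_add, Polynomial.eval_C, Polynomial.eval_mul, Polynomial.eval_X]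
  have hpc : ∀ i, (p i).coeff 1 = v i := by
    intro i
    rw [hpd0]
    simp [Polynomial.coeff_C]
  have hpd : ∀ i, (p i).natDegree ≤ 1 := by
    intro i
    rw [hpd0]
    refine (Polynomial.natDegree_add_le _ _).trans (max_le ?_ ?_)
    · rw [Polynomial.natDegree_C]
      exact Nat.zero_le _
    · refine (Polynomial.natDegree_mul_le).trans ?_
      rw [Polynomial.natDegree_C, add_zero]
      exact Polynomial.natDegree_X_le
  obtain ⟨c0, hc0⟩ := hLNY 3 1 p hpd (by simpa only [hpc] using hv)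
    (by simpa only [hpe] using hw) K₀ F
  refine ⟨c0 + ∑ᶠ i, Real.log (C i), fun t u ht ht0 hev => ?_⟩
  obtain ⟨x, hx⟩ : ∃ x : Fin 4 → Qb, x = fun i => w i + (t : Qb) * v i := ⟨_, rfl⟩
  rw [← hx] at hev
  rw [← hx]
  have hx0 : x 0 ≠ 0 := by rw [hx]; exact ht0
  have hy1 : (Fin.cons u x : Fin 5 → Qb) 1 = x 0 := rfl
  have h1 : hn F (af (Fin.cons u x : Fin 5 → Qb)) = hp F (Fin.cons u x : Fin 5 → Qb) := by
    refine hn_af F (by rw [hy1]; exact hx0) ?_
    rw [hy1, hx]
    exact hK t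
  have h2 := hc0 t ht
  have h3 : (fun i => (p i).eval (t : Qb)) = x := by
    rw [hx]
    funext i
    exact hpe _ i
  rw [h3] at h2
  have hle : ∀ i, |Real.log (mxn (F.abv i) (Fin.cons u x : Fin 5 → Qb)) -
      Real.log (mxn (F.abv i) x)| ≤ Real.log (C i) := by
    intro i
    have hxy : mxn (F.abv i) x ≤ mxn (F.abv i) (Fin.cons u x : Fin 5 → Qb) :=
      mxn_le _ (mxn_nonneg _ _) fun j => le_mxn (F.abv i) (Fin.cons u x : Fin 5 → Qb) j.succ
    refine Pool.Agent.H10.TD.log_abs (hC.one_le i) (mxn_pos _ (i := 1) ?_) (mxn_pos _ hx0) ?_ ?_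
    · rw [hy1]
      exact hx0
    · refine mxn_le _ (mul_nonneg (hC.pos i).le (mxn_nonneg _ _)) fun j => ?_
      refine Fin.cases ?_ (fun j => ?_) j
      · rw [Fin.cons_zero]
        exact hCb i x u hev
      · rw [Fin.cons_succ]
        exact (le_mxn _ x j).trans (le_mul_of_one_le_left (mxn_nonneg _ _) (hC.one_le i))
    · exact hxy.trans (le_mul_of_one_le_left (mxn_nonneg _ _) (hC.one_le i))
  have hyfin : (Function.support fun i =>
      Real.log (mxn (F.abv i) (Fin.cons u x : Fin 5 → Qb))).Finite :=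
    mxn_log_fin F (j := 1) (by rw [hy1]; exact hx0)
  have hxfin := mxn_log_fin F hx0
  have hCfin : (Function.support fun i => Real.log (C i)).Finite := hC.log_finite
  have hup : hp F (Fin.cons u x : Fin 5 → Qb) ≤ hp F x + ∑ᶠ i, Real.log (C i) := by
    unfold hp
    rw [← finsum_add_distrib hxfin hCfin]
    apply finsum_le_finsum' hyfin ((hxfin.union hCfin).subset (Function.support_add _ _))
    intro i
    have := (abs_le.1 (hle i)).2
    linarith
  have hlo : hp F x ≤ hp F (Fin.cons u x : Fin 5 → Qb) + ∑ᶠ i, Real.log (C i) := by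
    unfold hp
    rw [← finsum_add_distrib hyfin hCfin]
    apply finsum_le_finsum' hxfin ((hyfin.union hCfin).subset (Function.support_add _ _))
    intro i
    have := (abs_le.1 (hle i)).1
    linarith
  rw [h1]
  rw [Nat.cast_one, one_mul] at h2
  rw [abs_le] at h2 ⊢
  constructor <;> linarith [h2.1, h2.2]

end Pool.Agent.H75.TX
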