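import Pool.Agent.H8.TX.Targets
import Pool.Agent.H42.TD.UPE

/-!
# Zariski dense orbits on threefolds, row UPX: the number of preimages under the iterates of a
homogeneous self-map of a variety
-/

set_option autoImplicit false

open MvPolynomial
open Pool.Agent.H12.ZD (pmap)
open Pool.Agent.H18.HIT Pool.Agent.H18.HX Pool.Agent.H18.VZ
open Pool.Agent.H8.ZA (HFam Const NA)
open Pool.Agent.H8.TD (lc dg Wsp Cop dh)
open Pool.Agent.H8.TX

namespace Pool.Agent.H75.TX

namespace UPX

open Pool.Agent.H42.TD.UPE (pmap_zero pmap_smul NP np_reps)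

variable {L : ℕ} {k : Type} [Field k]

lemma zer_pmap {I : Ideal (Po L k)} {F : Tup L k} (hS : Slf I F) {x : Fin L → k}
    (hx : Zer I x) : Zer I (pmap F x) := by
  intro q hq
  have h1 := hx _ (hS.inv q hq)
  rwa [eval_aeval] at h1

lemma zer_iter {I : Ideal (Po L k)} {F : Tup L k} (hS : Slf I F) {x : Fin L → k}
    (hx : Zer I x) (n : ℕ) : Zer I ((pmap F)^[n] x) := by
  induction n with
  | zero => exact hx
  | succ n ih =>
    rw [Function.iterate_succ_apply']
    exact zer_pmap hS ih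

/-- one step -/
lemma one_step {I : Ideal (Po L k)} {F : Tup L k} {d e : ℕ} (hd : 1 ≤ d)
    (hF : ∀ i, (F i).IsHomogeneous d) {y : Fin L → k} (hy0 : y ≠ 0)
    (hb : ∀ S : Finset (Fin L → k), (∀ x ∈ S, Zer I x ∧ pmap F x = y) →
      (∀ x ∈ S, ∀ x' ∈ S, ∀ t : k, (∀ i, x' i = t * x i) → x' = x) → S.card ≤ e)
    (S : Finset (Fin L → k)) (hS : ∀ x ∈ S, Zer I x ∧ pmap F x = y) : S.card ≤ d * e := by
  classical
  obtain ⟨Z, hZs, hZp, hZr⟩ := np_reps S
  have hZc : Z.card ≤ e := hb Z (fun x hx => hS x (hZs hx)) hZp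
  have hd0 : 0 < d := by omega
  have hroot : ∀ (t : k) (x x' : Fin L → k), x ∈ S → x' ∈ S → x = t • x' → t ^ d = 1 := by
    intro t x x' hx hx' hxx
    have h1 := (hS x hx).2
    rw [hxx, pmap_smul hF, (hS x' hx').2] at h1
    obtain ⟨i, hi⟩ : ∃ i, y i ≠ 0 := by
      by_contra hcon
      push Not at hcon
      exact hy0 (funext hcon)
    have h2 := congrFun h1 i
    rw [Pi.smul_apply, smul_eq_mul] at h2
    exact mul_right_cancel₀ hi (h2.trans (one_mul _).symm)
  let T : Finset k := (Polynomial.nthRoots d (1 : k)).toFinset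
  have hT : ∀ t : k, t ^ d = 1 → t ∈ T := by
    intro t ht
    rw [Multiset.mem_toFinset, Polynomial.mem_nthRoots hd0]
    exact ht
  have hTc : T.card ≤ d :=
    (Multiset.toFinset_card_le _).trans (Polynomial.card_nthRoots _ _)
  calc S.card ≤ ((T ×ˢ Z).image fun p : k × (Fin L → k) => p.1 • p.2).card := by
        apply Finset.card_le_card
        intro x hx
        obtain ⟨z1, hz1, t, ht⟩ := hZr x hx
        rw [Finset.mem_image]
        rcases ht with ht | ht
        · exact ⟨(t, z1), Finset.mem_product.2 ⟨hT t (hroot t x z1 hx (hZs hz1) ht), hz1⟩, ht.symm⟩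
        · have h1 := hroot t z1 x (hZs hz1) hx ht
          have ht0 : t ≠ 0 := by
            intro h0
            rw [h0, zero_pow hd0.ne'] at h1
            exact zero_ne_one h1
          refine ⟨(t⁻¹, z1), Finset.mem_product.2 ⟨hT _ ?_, hz1⟩, ?_⟩
          · rw [inv_pow, h1, inv_one]
          · show t⁻¹ • z1 = x
            rw [ht, smul_smul, inv_mul_cancel₀ ht0, one_smul]
    _ ≤ (T ×ˢ Z).card := Finset.card_image_le
    _ = T.card * Z.card := Finset.card_product _ _
    _ ≤ d * e := Nat.mul_le_mul hTc hZc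

end UPX

open UPX

theorem pf_UPX (hELI : T_ELI) (hNSI : T_NSI) : T_UPX := by
  classical
  intro L d e n E k _ _ I _ F hd hF hSlf hX hU hC
  obtain ⟨i0, hi0⟩ := hX
  obtain ⟨c, hcI, hc⟩ := hU
  have hprime : I.IsPrime := inferInstance
  have hmul : ∀ a b : Po L k, a ∉ I → b ∉ I → a * b ∉ I := by
    intro a b ha hb hab
    rcases hprime.mem_or_mem hab with h | h
    · exact ha h
    · exact hb h
  have step : ∀ n : ℕ, ∃ c : Po L k, c ∉ I ∧ ∀ y : Fin L → k, Zer I y → eval y c ≠ 0 →
      ∀ S : Finset (Fin L → k), (∀ x ∈ S, Zer I x ∧ (pmap F)^[n] x = y) →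
        S.card ≤ (d * e) ^ n := by
    intro n
    induction n with
    | zero =>
      refine ⟨1, fun h1 => hprime.ne_top ((Ideal.eq_top_iff_one _).2 h1), fun y _ _ S hS => ?_⟩
      rw [pow_zero, Finset.card_le_one]
      intro a ha b hb
      rw [← Function.iterate_zero_apply (pmap F) a, ← Function.iterate_zero_apply (pmap F) b,
        (hS a ha).2, (hS b hb).2]
    | succ n ih =>
      obtain ⟨cn, hcn0, hcn⟩ := ih
      obtain ⟨c', A, hc'0, hc'⟩ := hELI L k I F hSlf cn hcn0
      refine ⟨c * c' * X i0, hmul _ _ (hmul _ _ hcI hc'0) hi0, fun y hyZ hy S hS => ?_⟩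
      rw [map_mul, map_mul] at hy
      have hy1 := left_ne_zero_of_mul (left_ne_zero_of_mul hy)
      have hy2 := right_ne_zero_of_mul (left_ne_zero_of_mul hy)
      have hy3 : y ≠ 0 := by
        intro h0
        apply right_ne_zero_of_mul hy
        rw [eval_X, h0]
        rfl
      have hzc : ∀ z, Zer I z → pmap F z = y → eval z cn ≠ 0 := by
        intro z hzZ hz h0
        have h1 := hzZ _ hc'
        rw [map_sub, eval_aeval, hz, map_mul, h0, zero_mul, sub_zero] at h1
        exact hy2 h1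
      have hSz : ∀ x ∈ S, pmap F ((pmap F)^[n] x) = y := by
        intro x hx
        rw [← Function.iterate_succ_apply' (pmap F)]
        exact (hS x hx).2
      have hZ : (S.image fun x => (pmap F)^[n] x).card ≤ d * e := by
        refine one_step hd hF hy3 (hc y hyZ hy1) _ ?_
        intro z hz
        obtain ⟨x, hx, rfl⟩ := Finset.mem_image.1 hz
        exact ⟨zer_iter hSlf (hS x hx).1 n, hSz x hx⟩
      have hfib : ∀ z ∈ S.image (fun x => (pmap F)^[n] x),
          (S.filter fun x => (pmap F)^[n] x = z).card ≤ (d * e) ^ n := by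
        intro z hz
        obtain ⟨x0, hx0, rfl⟩ := Finset.mem_image.1 hz
        refine hcn _ (zer_iter hSlf (hS x0 hx0).1 n)
          (hzc _ (zer_iter hSlf (hS x0 hx0).1 n) (hSz x0 hx0)) _ ?_
        intro x hx
        obtain ⟨hx1, hx2⟩ := Finset.mem_filter.1 hx
        exact ⟨(hS x hx1).1, hx2⟩
      calc S.card = ∑ z ∈ S.image (fun x => (pmap F)^[n] x),
            (S.filter fun x => (pmap F)^[n] x = z).card :=
            Finset.card_eq_sum_card_image _ _
        _ ≤ ∑ z ∈ S.image (fun x => (pmap F)^[n] x), (d * e) ^ n := Finset.sum_le_sum hfib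
        _ = (S.image fun x => (pmap F)^[n] x).card * (d * e) ^ n := by
            rw [Finset.sum_const, smul_eq_mul]
        _ ≤ (d * e) * (d * e) ^ n := Nat.mul_le_mul_right _ hZ
        _ = (d * e) ^ (n + 1) := (pow_succ' _ _).symm
  obtain ⟨cn, hcn0, hcn⟩ := step n
  obtain ⟨c2, hc20, hc2⟩ := hC
  obtain ⟨y, hyZ, hy⟩ := hNSI L k I (cn * c2) (hmul _ _ hcn0 hc20)
  rw [map_mul] at hy
  obtain ⟨S, hSc, hS⟩ := hc2 y hyZ (right_ne_zero_of_mul hy)
  rw [← hSc, ← mul_pow]
  refine hcn y hyZ (left_ne_zero_of_mul hy) S fun x hx => ⟨(hS x hx).1, ?_⟩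
  rw [← pmap_it]
  exact (hS x hx).2

end Pool.Agent.H75.TX
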